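import Mathlib
import Pool.Agent.R485.Mult.Moment

/-! Multilinear exponential sums with weights which do not depend on one of the variables. -/

set_option autoImplicit false

open Finset

namespace Pool.Agent.Run7.h566.ML

open Pool.Agent.H469R2.NK (e norm_e e_add e_zero conj_e)

/-- `F` does not depend on the coordinate `j` -/
def Free {n : ℕ} {X : Type} (j : Fin n) (F : (Fin n → ℕ) → X) : Prop :=
  ∀ a a' : Fin n → ℕ, (∀ i, i ≠ j → a i = a' i) → F a = F a'

/-- the points of the cube `[0, M) ^ n` -/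
def cube (n M : ℕ) : Finset (Fin n → ℕ) := Fintype.piFinset (fun _ => range M)

lemma mem_cube {n M : ℕ} {a : Fin n → ℕ} : a ∈ cube n M ↔ ∀ i, a i < M := by
  unfold cube
  rw [Fintype.mem_piFinset]
  simp only [mem_range]

lemma card_cube (n M : ℕ) : (cube n M).card = M ^ n := by
  unfold cube
  rw [Fintype.card_piFinset]
  simp

lemma cube_succ {X : Type} [AddCommMonoid X] (n M : ℕ) (f : (Fin (n + 1) → ℕ) → X) :
    ∑ a ∈ cube (n + 1) M, f a = ∑ c ∈ range M, ∑ a ∈ cube n M, f (Fin.cons c a) := by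
  rw [← sum_product']
  refine sum_nbij' (fun a => (a 0, Fin.tail a)) (fun p => Fin.cons p.1 p.2) ?_ ?_ ?_ ?_ ?_
  · intro a ha
    rw [mem_cube] at ha
    rw [mem_product, mem_range, mem_cube]
    exact ⟨ha 0, fun i => ha i.succ⟩
  · intro p hp
    rw [mem_product, mem_range, mem_cube] at hp
    rw [mem_cube]
    intro i
    refine Fin.cases ?_ (fun i => ?_) i
    · rw [Fin.cons_zero]; exact hp.1
    · rw [Fin.cons_succ]; exact hp.2 i
  · intro a _
    exact Fin.cons_self_tail a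
  · intro p _
    simp only [Fin.cons_zero, Fin.tail_cons]
  · intro a _
    simp only [Fin.cons_self_tail]

/-- linear sums -/
noncomputable def G (M : ℕ) (γ : ℝ) : ℝ := ‖∑ a ∈ range M, e (a * γ)‖

/-- the sums over the differences -/
noncomputable def T (M : ℕ) : ℕ → ℝ → ℝ
  | 0, β => G M β
  | n + 1, β => ∑ c ∈ range M, ∑ c' ∈ range M, T M n (((c : ℝ) - c') * β)

lemma G_nonneg (M : ℕ) (γ : ℝ) : 0 ≤ G M γ := norm_nonneg _

lemma G_le (M : ℕ) (γ : ℝ) : G M γ ≤ M := by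
  unfold G
  refine (norm_sum_le _ _).trans ?_
  rw [sum_congr rfl fun a _ => norm_e _]
  simp

lemma G_neg (M : ℕ) (γ : ℝ) : G M (-γ) = G M γ := by
  unfold G
  rw [← RCLike.norm_conj, map_sum]
  congr 1
  refine sum_congr rfl fun a _ => ?_
  rw [conj_e]
  congr 1
  ring

lemma T_nonneg (M n : ℕ) (β : ℝ) : 0 ≤ T M n β := by
  induction n generalizing β with
  | zero => exact G_nonneg M β
  | succ n ih =>
    unfold T
    exact sum_nonneg fun c _ => sum_nonneg fun c' _ => ih _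

lemma T_neg (M n : ℕ) (β : ℝ) : T M n (-β) = T M n β := by
  induction n generalizing β with
  | zero => exact G_neg M β
  | succ n ih =>
    unfold T
    refine sum_congr rfl fun c _ => sum_congr rfl fun c' _ => ?_
    rw [← ih]
    congr 1
    ring

lemma T_zero_le (M n : ℕ) (β : ℝ) : T M n β ≤ (M : ℝ) ^ (2 * n + 1) := by
  induction n generalizing β with
  | zero =>
    rw [mul_zero, zero_add, pow_one]
    exact G_le M β
  | succ n ih =>
    unfold T
    refine (sum_le_sum fun c _ => sum_le_sum fun c' _ => ih _).trans (le_of_eq ?_)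
    simp only [sum_const, card_range, nsmul_eq_mul]
    ring

lemma pmean {ι : Type} (s : Finset ι) (g : ι → ℝ) (hg : ∀ i ∈ s, 0 ≤ g i) (k : ℕ) :
    (∑ i ∈ s, g i) ^ (k + 1) ≤ (s.card : ℝ) ^ k * ∑ i ∈ s, g i ^ (k + 1) := by
  rcases s.eq_empty_or_nonempty with h | h
  · subst h
    simp
  · have h1 := pow_sum_div_card_le_sum_pow (s := s) (f := g) hg k
    have h2 : (0 : ℝ) < s.card := by exact_mod_cast h.card_pos
    rw [div_le_iff₀ (by positivity)] at h1
    linarith

/-- **Cauchy–Schwarz.** -/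
theorem cs (M : ℕ) (n : ℕ) : ∀ (β : ℝ) (F : Fin (n + 1) → (Fin (n + 1) → ℕ) → ℂ),
    (∀ j a, ‖F j a‖ ≤ 1) → (∀ j, Free j (F j)) →
    (M : ℝ) ^ (2 * n + 1) *
      ‖∑ a ∈ cube (n + 1) M, e ((∏ i, (a i : ℝ)) * β) * ∏ j, F j a‖ ^ (2 ^ n) ≤
      (M : ℝ) ^ ((n + 1) * 2 ^ n) * T M n β := by
  induction n with
  | zero =>
    intro β F hF1 hF2
    have h1 : ∑ a ∈ cube (0 + 1) M, e ((∏ i, (a i : ℝ)) * β) * ∏ j, F j a =
        F 0 (fun _ => 0) * ∑ c ∈ range M, e (c * β) := by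
      rw [cube_succ, mul_sum]
      refine sum_congr rfl fun c _ => ?_
      have h2 : cube 0 M = {fun i => i.elim0} := by
        ext a
        rw [mem_cube, mem_singleton]
        constructor
        · intro _
          funext i
          exact i.elim0
        · intro _ i
          exact i.elim0
      rw [h2, sum_singleton]
      have h3 : F 0 (Fin.cons c fun i : Fin 0 => i.elim0) = F 0 (fun _ => 0) := by
        apply hF2 0
        intro i hi
        exact absurd (by fin_cases i; rfl) hi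
      simp only [Fin.prod_univ_succ, Fin.cons_zero, univ_eq_empty, prod_empty, mul_one, Nat.reduceAdd]
      rw [h3]
      ring
    rw [h1]
    simp only [pow_zero, pow_one, mul_zero, zero_add, mul_one]
    rw [norm_mul]
    apply mul_le_mul_of_nonneg_left _ (Nat.cast_nonneg _)
    calc ‖F 0 fun _ => 0‖ * ‖∑ c ∈ range M, e (c * β)‖ ≤ 1 * ‖∑ c ∈ range M, e (c * β)‖ := by
          gcongr
          exact hF1 _ _
      _ = T M 0 β := by rw [one_mul]; rfl
  | succ n ih =>
    intro β F hF1 hF2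
    -- the inner sums
    set Q : ℕ → (Fin (n + 1) → ℕ) → ℂ := fun c a =>
      e ((∏ i, (a i : ℝ)) * (c * β)) * ∏ j : Fin (n + 1), F j.succ (Fin.cons c a) with hQ
    set f : (Fin (n + 1) → ℕ) → ℂ := fun a => F 0 (Fin.cons 0 a) with hf
    have hsum : ∑ a ∈ cube (n + 1 + 1) M, e ((∏ i, (a i : ℝ)) * β) * ∏ j, F j a =
        ∑ a ∈ cube (n + 1) M, f a * ∑ c ∈ range M, Q c a := by
      rw [cube_succ, sum_comm]
      refine sum_congr rfl fun a _ => ?_
      rw [mul_sum]
      refine sum_congr rfl fun c _ => ?_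
      rw [Fin.prod_univ_succ (n := n + 1) (f := fun j => F j (Fin.cons c a)),
        Fin.prod_univ_succ (n := n + 1) (f := fun i => ((Fin.cons c a : Fin (n + 1 + 1) → ℕ) i : ℝ))]
      have h1 : F 0 (Fin.cons c a) = f a := by
        rw [hf]
        apply hF2 0
        intro i hi
        obtain ⟨i', rfl⟩ := Fin.exists_succ_eq.2 hi
        rw [Fin.cons_succ, Fin.cons_succ]
      rw [h1, hQ]
      simp only [Fin.cons_zero, Fin.cons_succ]
      have h2 : (c : ℝ) * (∏ i, (a i : ℝ)) * β = (∏ i, (a i : ℝ)) * (c * β) := by ring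
      rw [h2]
      ring
    set U : ℕ → ℕ → ℂ := fun c c' => ∑ a ∈ cube (n + 1) M, Q c a * (starRingEnd ℂ) (Q c' a) with hU
    have hcs : ‖∑ a ∈ cube (n + 1) M, f a * ∑ c ∈ range M, Q c a‖ ^ 2 ≤
        (M : ℝ) ^ (n + 1) * ∑ c ∈ range M, ∑ c' ∈ range M, ‖U c c'‖ := by
      have h1 : ‖∑ a ∈ cube (n + 1) M, f a * ∑ c ∈ range M, Q c a‖ ≤
          ∑ a ∈ cube (n + 1) M, ‖∑ c ∈ range M, Q c a‖ := by
        refine (norm_sum_le _ _).trans (sum_le_sum fun a _ => ?_)
        rw [norm_mul]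
        calc ‖f a‖ * ‖∑ c ∈ range M, Q c a‖ ≤ 1 * ‖∑ c ∈ range M, Q c a‖ := by
              gcongr
              exact hF1 _ _
          _ = _ := one_mul _
      have h2 : (∑ a ∈ cube (n + 1) M, ‖∑ c ∈ range M, Q c a‖) ^ 2 ≤
          (M : ℝ) ^ (n + 1) * ∑ a ∈ cube (n + 1) M, ‖∑ c ∈ range M, Q c a‖ ^ 2 := by
        have := sq_sum_le_card_mul_sum_sq (s := cube (n + 1) M) (f := fun a => ‖∑ c ∈ range M, Q c a‖)
        rw [card_cube] at this
        push_cast at this
        exact this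
      have h3 : ((∑ a ∈ cube (n + 1) M, ‖∑ c ∈ range M, Q c a‖ ^ 2 : ℝ) : ℂ) =
          ∑ c ∈ range M, ∑ c' ∈ range M, U c c' := by
        push_cast
        have h4 : ∀ a, ((‖∑ c ∈ range M, Q c a‖ : ℂ)) ^ 2 =
            ∑ c ∈ range M, ∑ c' ∈ range M, Q c a * (starRingEnd ℂ) (Q c' a) := by
          intro a
          have h5 : ((‖∑ c ∈ range M, Q c a‖ : ℂ)) ^ 2 =
              (∑ c ∈ range M, Q c a) * (starRingEnd ℂ) (∑ c ∈ range M, Q c a) := by
            rw [Complex.mul_conj, Complex.normSq_eq_norm_sq]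
            push_cast
            rfl
          rw [h5, map_sum, sum_mul_sum]
        rw [sum_congr rfl fun a _ => h4 a, sum_comm]
        refine sum_congr rfl fun c _ => ?_
        rw [sum_comm]
      have h6 : ∑ a ∈ cube (n + 1) M, ‖∑ c ∈ range M, Q c a‖ ^ 2 ≤
          ∑ c ∈ range M, ∑ c' ∈ range M, ‖U c c'‖ := by
        have h7 : ∑ a ∈ cube (n + 1) M, ‖∑ c ∈ range M, Q c a‖ ^ 2 =
            ‖((∑ a ∈ cube (n + 1) M, ‖∑ c ∈ range M, Q c a‖ ^ 2 : ℝ) : ℂ)‖ := by
          rw [Complex.norm_real, Real.norm_eq_abs, abs_of_nonneg]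
          exact sum_nonneg fun _ _ => by positivity
        rw [h7, h3]
        refine (norm_sum_le _ _).trans (sum_le_sum fun c _ => norm_sum_le _ _)
      calc ‖∑ a ∈ cube (n + 1) M, f a * ∑ c ∈ range M, Q c a‖ ^ 2
          ≤ (∑ a ∈ cube (n + 1) M, ‖∑ c ∈ range M, Q c a‖) ^ 2 :=
            pow_le_pow_left₀ (norm_nonneg _) h1 2
        _ ≤ _ := h2
        _ ≤ _ := by gcongr
    -- the inner sums are of the same form
    have hin : ∀ c c' : ℕ, (M : ℝ) ^ (2 * n + 1) * ‖U c c'‖ ^ (2 ^ n) ≤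
        (M : ℝ) ^ ((n + 1) * 2 ^ n) * T M n (((c : ℝ) - c') * β) := by
      intro c c'
      have h1 := ih (((c : ℝ) - c') * β)
        (fun j a => F j.succ (Fin.cons c a) * (starRingEnd ℂ) (F j.succ (Fin.cons c' a)))
        (fun j a => by
          rw [norm_mul, RCLike.norm_conj]
          exact mul_le_one₀ (hF1 _ _) (norm_nonneg _) (hF1 _ _))
        (fun j a a' haa => by
          have h2 : ∀ c : ℕ, F j.succ (Fin.cons c a) = F j.succ (Fin.cons c a') := by
            intro c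
            apply hF2 j.succ
            intro i hi
            rcases Fin.eq_zero_or_eq_succ i with h0 | ⟨i', rfl⟩
            · subst h0
              rw [Fin.cons_zero, Fin.cons_zero]
            · rw [Fin.cons_succ, Fin.cons_succ]
              exact haa i' (fun h => hi (by rw [h]))
          simp only
          rw [h2 c, h2 c'])
      refine le_trans (le_of_eq ?_) h1
      congr 3
      rw [hU]
      simp only
      refine sum_congr rfl fun a _ => ?_
      rw [hQ]
      simp only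
      rw [map_mul, conj_e, prod_mul_distrib, map_prod]
      have h3 : e ((∏ i, (a i : ℝ)) * (((c : ℝ) - c') * β)) =
          e ((∏ i, (a i : ℝ)) * (c * β)) * e (-((∏ i, (a i : ℝ)) * (c' * β))) := by
        rw [← e_add]
        congr 1
        ring
      rw [h3]
      ring
    rw [hsum]
    -- power mean
    have hpm : (∑ c ∈ range M, ∑ c' ∈ range M, ‖U c c'‖) ^ (2 ^ n) ≤
        ((M : ℝ) ^ 2) ^ (2 ^ n - 1) * ∑ c ∈ range M, ∑ c' ∈ range M, ‖U c c'‖ ^ (2 ^ n) := by
      rw [← sum_product', ← sum_product']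
      have h1 : 2 ^ n - 1 + 1 = 2 ^ n := Nat.sub_add_cancel Nat.one_le_two_pow
      have h2 := pmean (range M ×ˢ range M) (fun x => ‖U x.1 x.2‖) (fun _ _ => norm_nonneg _) (2 ^ n - 1)
      rw [h1, card_product, card_range] at h2
      refine h2.trans (le_of_eq ?_)
      push_cast
      ring
    set V : ℝ := ∑ c ∈ range M, ∑ c' ∈ range M, ‖U c c'‖ with hV
    have hV0 : 0 ≤ V := sum_nonneg fun _ _ => sum_nonneg fun _ _ => norm_nonneg _
    set N : ℝ := ‖∑ a ∈ cube (n + 1) M, f a * ∑ c ∈ range M, Q c a‖ with hN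
    have hN0 : 0 ≤ N := norm_nonneg _
    have hM0 : (0 : ℝ) ≤ M := Nat.cast_nonneg _
    have e1 : N ^ 2 ^ (n + 1) = (N ^ 2) ^ 2 ^ n := by
      rw [← pow_mul]
      congr 1
      ring
    have e2 : (M : ℝ) ^ 2 * ((M : ℝ) ^ 2) ^ (2 ^ n - 1) = (M : ℝ) ^ (2 * 2 ^ n) := by
      rw [← pow_succ', Nat.sub_add_cancel Nat.one_le_two_pow, ← pow_mul]
    have e3 : (M : ℝ) ^ (2 * (n + 1) + 1) = (M : ℝ) ^ 2 * (M : ℝ) ^ (2 * n + 1) := by
      rw [← pow_add]
      congr 1
      ring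
    calc (M : ℝ) ^ (2 * (n + 1) + 1) * N ^ 2 ^ (n + 1)
        ≤ (M : ℝ) ^ (2 * (n + 1) + 1) * ((M : ℝ) ^ (n + 1) * V) ^ 2 ^ n := by
          rw [e1]
          gcongr
      _ = (M : ℝ) ^ (2 * (n + 1) + 1) * (((M : ℝ) ^ (n + 1)) ^ 2 ^ n * V ^ 2 ^ n) := by rw [mul_pow]
      _ ≤ (M : ℝ) ^ (2 * (n + 1) + 1) * (((M : ℝ) ^ (n + 1)) ^ 2 ^ n *
            (((M : ℝ) ^ 2) ^ (2 ^ n - 1) * ∑ c ∈ range M, ∑ c' ∈ range M, ‖U c c'‖ ^ (2 ^ n))) := by
          gcongr
      _ = ((M : ℝ) ^ (n + 1)) ^ 2 ^ n * ((M : ℝ) ^ 2 * ((M : ℝ) ^ 2) ^ (2 ^ n - 1)) *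
            ((M : ℝ) ^ (2 * n + 1) * ∑ c ∈ range M, ∑ c' ∈ range M, ‖U c c'‖ ^ (2 ^ n)) := by
          rw [e3]
          ring
      _ = ((M : ℝ) ^ (n + 1)) ^ 2 ^ n * (M : ℝ) ^ (2 * 2 ^ n) *
            (∑ c ∈ range M, ∑ c' ∈ range M, (M : ℝ) ^ (2 * n + 1) * ‖U c c'‖ ^ (2 ^ n)) := by
          rw [e2, mul_sum]
          congr 1
          refine sum_congr rfl fun c _ => ?_
          rw [mul_sum]
      _ ≤ ((M : ℝ) ^ (n + 1)) ^ 2 ^ n * (M : ℝ) ^ (2 * 2 ^ n) *
            (∑ c ∈ range M, ∑ c' ∈ range M,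
              (M : ℝ) ^ ((n + 1) * 2 ^ n) * T M n (((c : ℝ) - c') * β)) := by
          apply mul_le_mul_of_nonneg_left _ (by positivity)
          exact sum_le_sum fun c _ => sum_le_sum fun c' _ => hin c c'
      _ = (M : ℝ) ^ ((n + 1 + 1) * 2 ^ (n + 1)) * T M (n + 1) β := by
          simp only [← mul_sum]
          rw [← mul_assoc]
          have e4 : ((M : ℝ) ^ (n + 1)) ^ 2 ^ n * (M : ℝ) ^ (2 * 2 ^ n) * (M : ℝ) ^ ((n + 1) * 2 ^ n) =
              (M : ℝ) ^ ((n + 1 + 1) * 2 ^ (n + 1)) := by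
            rw [← pow_mul, ← pow_add, ← pow_add]
            congr 1
            ring
          rw [e4]
          rfl

end Pool.Agent.Run7.h566.ML
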