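import Mathlib
import Pool.Agent.Run7.h566.ML.Cs
import Pool.Agent.Run7.h566.BL.Bil

/-! The sums over products of differences. -/

set_option autoImplicit false

open Finset

namespace Pool.Agent.Run7.h566.ML

open Pool.Agent.H469R2.NK (e norm_e e_add e_zero conj_e)
open Pool.Agent.Run7.h566.BL (nd spaced geo)

/-- sums over products of positive differences -/
noncomputable def P (M : ℕ) : ℕ → ℝ → ℝ
  | 0, β => G M β
  | n + 1, β => ∑ δ ∈ Ico 1 M, P M n ((δ : ℝ) * β)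

lemma P_nonneg (M n : ℕ) (β : ℝ) : 0 ≤ P M n β := by
  induction n generalizing β with
  | zero => exact G_nonneg M β
  | succ n ih =>
    unfold P
    exact sum_nonneg fun c _ => ih _

lemma T_le (M n : ℕ) (β : ℝ) :
    T M n β ≤ (2 * M : ℝ) ^ n * P M n β + n * 2 ^ n * (M : ℝ) ^ (2 * n) := by
  induction n generalizing β with
  | zero =>
    simp only [pow_zero, one_mul, Nat.cast_zero, mul_zero, zero_mul, add_zero]
    exact le_of_eq rfl
  | succ n ih =>
    have hM0 : (0 : ℝ) ≤ M := Nat.cast_nonneg _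
    have hrow : ∀ c ∈ range M, ∑ c' ∈ range M, T M n (((c : ℝ) - c') * β) ≤
        (M : ℝ) ^ (2 * n + 1) + 2 * ∑ δ ∈ Ico 1 M, T M n ((δ : ℝ) * β) := by
      intro c hc
      rw [mem_range] at hc
      have hsplit : ∑ c' ∈ range M, T M n (((c : ℝ) - c') * β) =
          ∑ c' ∈ range c, T M n (((c : ℝ) - c') * β) +
          ∑ c' ∈ Ico c M, T M n (((c : ℝ) - c') * β) := by
        rw [range_eq_Ico, range_eq_Ico, sum_Ico_consecutive _ (Nat.zero_le _) hc.le]
      have hsplit2 : ∑ c' ∈ Ico c M, T M n (((c : ℝ) - c') * β) =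
          T M n (((c : ℝ) - c) * β) + ∑ c' ∈ Ico (c + 1) M, T M n (((c : ℝ) - c') * β) :=
        sum_eq_sum_Ico_succ_bot hc _
      have h1 : ∑ c' ∈ range c, T M n (((c : ℝ) - c') * β) ≤ ∑ δ ∈ Ico 1 M, T M n ((δ : ℝ) * β) := by
        have h2 : ∑ c' ∈ range c, T M n (((c : ℝ) - c') * β) =
            ∑ δ ∈ (range c).image (fun c' => c - c'), T M n ((δ : ℝ) * β) := by
          rw [sum_image]
          · refine sum_congr rfl fun c' hc' => ?_
            rw [mem_range] at hc'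
            rw [Nat.cast_sub hc'.le]
          · intro x hx y hy hxy
            rw [mem_coe, mem_range] at hx hy
            simp only at hxy
            omega
        rw [h2]
        refine sum_le_sum_of_subset_of_nonneg ?_ fun _ _ _ => T_nonneg _ _ _
        intro δ hδ
        obtain ⟨c', hc', rfl⟩ := mem_image.1 hδ
        rw [mem_range] at hc'
        rw [mem_Ico]
        omega
      have h3 : ∑ c' ∈ Ico (c + 1) M, T M n (((c : ℝ) - c') * β) ≤
          ∑ δ ∈ Ico 1 M, T M n ((δ : ℝ) * β) := by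
        have h2 : ∑ c' ∈ Ico (c + 1) M, T M n (((c : ℝ) - c') * β) =
            ∑ δ ∈ (Ico (c + 1) M).image (fun c' => c' - c), T M n ((δ : ℝ) * β) := by
          rw [sum_image]
          · refine sum_congr rfl fun c' hc' => ?_
            rw [mem_Ico] at hc'
            rw [Nat.cast_sub (by omega), ← T_neg]
            congr 1
            ring
          · intro x hx y hy hxy
            rw [mem_coe, mem_Ico] at hx hy
            simp only at hxy
            omega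
        rw [h2]
        refine sum_le_sum_of_subset_of_nonneg ?_ fun _ _ _ => T_nonneg _ _ _
        intro δ hδ
        obtain ⟨c', hc', rfl⟩ := mem_image.1 hδ
        rw [mem_Ico] at hc' ⊢
        omega
      rw [hsplit, hsplit2]
      have h4 := T_zero_le M n (((c : ℝ) - c) * β)
      linarith
    have h5 : T M (n + 1) β ≤ M * ((M : ℝ) ^ (2 * n + 1) + 2 * ∑ δ ∈ Ico 1 M, T M n ((δ : ℝ) * β)) := by
      have h6 : T M (n + 1) β = ∑ c ∈ range M, ∑ c' ∈ range M, T M n (((c : ℝ) - c') * β) := rfl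
      rw [h6]
      refine (sum_le_card_nsmul _ _ _ hrow).trans (le_of_eq ?_)
      rw [card_range, nsmul_eq_mul]
    have h7 : ∑ δ ∈ Ico 1 M, T M n ((δ : ℝ) * β) ≤
        (2 * M : ℝ) ^ n * P M (n + 1) β + M * (n * 2 ^ n * (M : ℝ) ^ (2 * n)) := by
      calc ∑ δ ∈ Ico 1 M, T M n ((δ : ℝ) * β)
          ≤ ∑ δ ∈ Ico 1 M, ((2 * M : ℝ) ^ n * P M n ((δ : ℝ) * β) + n * 2 ^ n * (M : ℝ) ^ (2 * n)) :=
            sum_le_sum fun δ _ => ih _
        _ = (2 * M : ℝ) ^ n * P M (n + 1) β +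
              ((Ico 1 M).card : ℝ) * (n * 2 ^ n * (M : ℝ) ^ (2 * n)) := by
            rw [sum_add_distrib, sum_const, nsmul_eq_mul, ← mul_sum]
            rfl
        _ ≤ _ := by
            gcongr
            rw [Nat.card_Ico]
            exact Nat.sub_le _ _
    have h8 : (M : ℝ) ^ (2 * n + 2) ≤ 2 ^ (n + 1) * (M : ℝ) ^ (2 * n + 2) := by
      have : (1 : ℝ) ≤ 2 ^ (n + 1) := one_le_pow₀ (by norm_num)
      have h9 : 0 ≤ (M : ℝ) ^ (2 * n + 2) := by positivity
      nlinarith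
    calc T M (n + 1) β ≤ M * ((M : ℝ) ^ (2 * n + 1) +
          2 * ((2 * M : ℝ) ^ n * P M (n + 1) β + M * (n * 2 ^ n * (M : ℝ) ^ (2 * n)))) := by
          refine h5.trans ?_
          gcongr
      _ = (M : ℝ) ^ (2 * n + 2) + (2 * M : ℝ) ^ (n + 1) * P M (n + 1) β +
          n * 2 ^ (n + 1) * (M : ℝ) ^ (2 * n + 2) := by ring
      _ ≤ 2 ^ (n + 1) * (M : ℝ) ^ (2 * n + 2) + (2 * M : ℝ) ^ (n + 1) * P M (n + 1) β +
          n * 2 ^ (n + 1) * (M : ℝ) ^ (2 * n + 2) := by gcongr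
      _ = (2 * M : ℝ) ^ (n + 1) * P M (n + 1) β +
          ((n + 1 : ℕ) : ℝ) * 2 ^ (n + 1) * (M : ℝ) ^ (2 * (n + 1)) := by
          push_cast
          ring

lemma P_le (M n : ℕ) (β : ℝ) :
    P M n β ≤ ∑ m ∈ Icc 1 (M ^ n), (m.divisors.card : ℝ) ^ n * G M ((m : ℝ) * β) := by
  induction n generalizing β with
  | zero =>
    simp only [pow_zero, Icc_self, sum_singleton, Nat.cast_one, one_mul]
    exact le_of_eq rfl
  | succ n ih =>
    classical
    have h1 : P M (n + 1) β ≤ ∑ δ ∈ Ico 1 M, ∑ m ∈ Icc 1 (M ^ n),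
        (m.divisors.card : ℝ) ^ n * G M ((m : ℝ) * (δ * β)) := sum_le_sum fun δ _ => ih _
    refine h1.trans ?_
    rw [← sum_product']
    have hmap : ∀ x ∈ Ico 1 M ×ˢ Icc 1 (M ^ n), x.2 * x.1 ∈ Icc 1 (M ^ (n + 1)) := by
      intro x hx
      rw [mem_product, mem_Ico, mem_Icc] at hx
      rw [mem_Icc]
      refine ⟨Nat.mul_pos (by omega) (by omega), ?_⟩
      rw [pow_succ]
      exact Nat.mul_le_mul hx.2.2 hx.1.2.le
    rw [← sum_fiberwise_of_maps_to hmap]
    refine sum_le_sum fun m hm => ?_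
    rw [mem_Icc] at hm
    have hm0 : m ≠ 0 := by omega
    have hcard : (((Ico 1 M ×ˢ Icc 1 (M ^ n)).filter fun x => x.2 * x.1 = m).card : ℝ) ≤
        m.divisors.card := by
      norm_cast
      refine card_le_card_of_injOn (fun x => x.1) ?_ ?_
      · intro x hx
        rw [mem_coe, mem_filter] at hx
        rw [mem_coe, Nat.mem_divisors]
        exact ⟨Dvd.intro_left _ hx.2, hm0⟩
      · intro x hx y hy hxy
        rw [mem_coe, mem_filter, mem_product, mem_Ico, mem_Icc] at hx hy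
        simp only at hxy
        refine Prod.ext hxy ?_
        have h2 := hx.2
        rw [← hy.2, hxy] at h2
        exact Nat.eq_of_mul_eq_mul_right (by omega) h2
    calc ∑ x ∈ (Ico 1 M ×ˢ Icc 1 (M ^ n)).filter (fun x => x.2 * x.1 = m),
          (x.2.divisors.card : ℝ) ^ n * G M ((x.2 : ℝ) * (x.1 * β))
        ≤ ∑ x ∈ (Ico 1 M ×ˢ Icc 1 (M ^ n)).filter (fun x => x.2 * x.1 = m),
          (m.divisors.card : ℝ) ^ n * G M ((m : ℝ) * β) := by
          refine sum_le_sum fun x hx => ?_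
          rw [mem_filter] at hx
          have h2 : (x.2 : ℝ) * (x.1 * β) = (m : ℝ) * β := by
            rw [← hx.2]
            push_cast
            ring
          rw [h2]
          have h3 : x.2.divisors.card ≤ m.divisors.card :=
            card_le_card (Nat.divisors_subset_of_dvd hm0 (Dvd.intro _ hx.2))
          have h4 : 0 ≤ G M ((m : ℝ) * β) := G_nonneg _ _
          gcongr
      _ = (((Ico 1 M ×ˢ Icc 1 (M ^ n)).filter fun x => x.2 * x.1 = m).card : ℝ) *
          ((m.divisors.card : ℝ) ^ n * G M ((m : ℝ) * β)) := by rw [sum_const, nsmul_eq_mul]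
      _ ≤ (m.divisors.card : ℝ) * ((m.divisors.card : ℝ) ^ n * G M ((m : ℝ) * β)) := by
          have h4 : 0 ≤ G M ((m : ℝ) * β) := G_nonneg _ _
          gcongr
      _ = (m.divisors.card : ℝ) ^ (n + 1) * G M ((m : ℝ) * β) := by ring

/-- the divisor bound (the proof is that of `S17662`) -/
lemma divisor_bound (δ : ℝ) (hδ : 0 < δ) :
    ∃ C : ℝ, 0 < C ∧ ∀ n : ℕ, n ≠ 0 → ((n.divisors.card : ℕ) : ℝ) ≤ C * (n : ℝ) ^ δ := by
  have hlog : 0 < Real.log 2 := Real.log_pos (by norm_num)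
  have hδl : 0 < δ * Real.log 2 := mul_pos hδ hlog
  set M : ℝ := max 1 (1 / (δ * Real.log 2)) with hM
  have hM1 : 1 ≤ M := le_max_left _ _
  have hM2 : 1 ≤ M * (δ * Real.log 2) := by
    have : 1 / (δ * Real.log 2) ≤ M := le_max_right _ _
    calc (1 : ℝ) = 1 / (δ * Real.log 2) * (δ * Real.log 2) := by
          field_simp
      _ ≤ M * (δ * Real.log 2) := mul_le_mul_of_nonneg_right this hδl.le
  set K : ℕ := ⌈(2 : ℝ) ^ (1 / δ)⌉₊ with hK
  have hKle : (2 : ℝ) ^ (1 / δ) ≤ (K : ℝ) := Nat.le_ceil _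
  refine ⟨M ^ K, by positivity, ?_⟩
  intro n hn
  have hbase : ∀ p ∈ n.primeFactors, (((n.factorization p + 1 : ℕ)) : ℝ) ≤
      (if p < K then M else 1) * (((p : ℝ) ^ (n.factorization p)) ^ δ) := by
    intro p hp
    have hpp : p.Prime := Nat.prime_of_mem_primeFactors hp
    set a := n.factorization p with ha
    have hp2 : (2 : ℝ) ≤ (p : ℝ) := by exact_mod_cast hpp.two_le
    have hp0 : (0 : ℝ) ≤ (p : ℝ) := by positivity
    have hpow : (((p : ℝ) ^ a) ^ δ) = ((p : ℝ) ^ δ) ^ a := by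
      rw [← Real.rpow_natCast (p : ℝ) a, ← Real.rpow_mul hp0, ← Real.rpow_natCast ((p : ℝ) ^ δ) a,
        ← Real.rpow_mul hp0, mul_comm]
    rw [hpow]
    split_ifs with hlt
    · have h1 : (2 : ℝ) ^ δ ≤ (p : ℝ) ^ δ := Real.rpow_le_rpow (by norm_num) hp2 hδ.le
      have h2 : ((2 : ℝ) ^ δ) ^ a ≤ ((p : ℝ) ^ δ) ^ a :=
        pow_le_pow_left₀ (by positivity) h1 a
      have h3 : 1 + (a : ℝ) * (δ * Real.log 2) ≤ ((2 : ℝ) ^ δ) ^ a := by
        have : ((2 : ℝ) ^ δ) ^ a = Real.exp ((a : ℝ) * (δ * Real.log 2)) := by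
          rw [← Real.rpow_natCast, ← Real.rpow_mul (by norm_num), Real.rpow_def_of_pos (by norm_num)]
          congr 1; ring
        rw [this]
        have := Real.add_one_le_exp ((a : ℝ) * (δ * Real.log 2))
        linarith
      have h4 : (((a + 1 : ℕ)) : ℝ) ≤ M * (1 + (a : ℝ) * (δ * Real.log 2)) := by
        push_cast
        have ha0 : (0 : ℝ) ≤ (a : ℝ) := by positivity
        nlinarith [mul_le_mul_of_nonneg_left hM2 ha0]
      calc (((a + 1 : ℕ)) : ℝ) ≤ M * (1 + (a : ℝ) * (δ * Real.log 2)) := h4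
        _ ≤ M * (((p : ℝ) ^ δ) ^ a) :=
          mul_le_mul_of_nonneg_left (h3.trans h2) (by linarith)
    · have hKp : (K : ℝ) ≤ (p : ℝ) := by exact_mod_cast not_lt.mp hlt
      have h1 : (2 : ℝ) ≤ (p : ℝ) ^ δ := by
        have h5 : ((2 : ℝ) ^ (1 / δ)) ^ δ ≤ (p : ℝ) ^ δ :=
          Real.rpow_le_rpow (by positivity) (hKle.trans hKp) hδ.le
        have h6 : ((2 : ℝ) ^ (1 / δ)) ^ δ = 2 := by
          rw [← Real.rpow_mul (by norm_num)]
          rw [one_div, inv_mul_cancel₀ hδ.ne', Real.rpow_one]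
        rwa [h6] at h5
      have h2 : (2 : ℝ) ^ a ≤ ((p : ℝ) ^ δ) ^ a := pow_le_pow_left₀ (by norm_num) h1 a
      have h3 : (((a + 1 : ℕ)) : ℝ) ≤ (2 : ℝ) ^ a := by
        have : a + 1 ≤ 2 ^ a := Nat.lt_two_pow_self
        exact_mod_cast this
      rw [one_mul]
      exact h3.trans h2
  have hn' : (n : ℝ) ^ δ = ∏ p ∈ n.primeFactors, (((p : ℝ) ^ (n.factorization p)) ^ δ) := by
    rw [Real.finsetProd_rpow _ _ (fun i _ => by positivity)]
    congr 1
    have := Nat.prod_factorization_pow_eq_self hn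
    conv_lhs => rw [← this]
    rw [Finsupp.prod]
    push_cast
    rfl
  rw [Nat.card_divisors hn]
  push_cast
  calc (∏ p ∈ n.primeFactors, ((n.factorization p : ℝ) + 1))
      ≤ ∏ p ∈ n.primeFactors, ((if p < K then M else 1) * (((p : ℝ) ^ (n.factorization p)) ^ δ)) := by
        apply Finset.prod_le_prod
        · intro i _; positivity
        · intro i hi
          have := hbase i hi
          push_cast at this
          exact this
    _ = (∏ p ∈ n.primeFactors, (if p < K then M else 1)) * (n : ℝ) ^ δ := by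
        rw [Finset.prod_mul_distrib, hn']
    _ ≤ M ^ K * (n : ℝ) ^ δ := by
        apply mul_le_mul_of_nonneg_right _ (by positivity)
        rw [Finset.prod_ite, Finset.prod_const, Finset.prod_const_one, mul_one]
        apply pow_le_pow_right₀ hM1
        calc (n.primeFactors.filter (fun p => p < K)).card ≤ (Finset.range K).card := by
              apply Finset.card_le_card
              intro x hx
              simp only [Finset.mem_filter] at hx
              exact Finset.mem_range.mpr hx.2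
          _ = K := Finset.card_range K

/-- the multilinear sums in terms of linear ones -/
theorem lin (n : ℕ) (ε : ℝ) (hε : 0 < ε) : ∃ C : ℝ, 0 < C ∧ ∀ (M : ℕ), 1 ≤ M → ∀ (β : ℝ)
    (F : Fin (n + 1) → (Fin (n + 1) → ℕ) → ℂ), (∀ j a, ‖F j a‖ ≤ 1) → (∀ j, Free j (F j)) →
    ‖∑ a ∈ cube (n + 1) M, e ((∏ i, (a i : ℝ)) * β) * ∏ j, F j a‖ ^ (2 ^ n) ≤
      C * ((M : ℝ) ^ (n + 1)) ^ (2 ^ n) * ((M : ℝ) ^ (ε - n - 1) *
        ∑ m ∈ Icc 1 (M ^ n), G M ((m : ℝ) * β) + (M : ℝ) ^ (-1 : ℝ)) := by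
  obtain ⟨C, hC, hdiv⟩ := divisor_bound (ε / (n ^ 2 + 1)) (by positivity)
  refine ⟨2 ^ n * C ^ n + n * 2 ^ n + 1, by positivity, fun M hM β F hF1 hF2 => ?_⟩
  have hMR : (1 : ℝ) ≤ M := by exact_mod_cast hM
  have hM0 : (0 : ℝ) < M := by linarith
  have h1 := cs M n β F hF1 hF2
  have h2 := T_le M n β
  have h3 := P_le M n β
  set S : ℝ := ∑ m ∈ Icc 1 (M ^ n), G M ((m : ℝ) * β) with hS
  have hS0 : 0 ≤ S := sum_nonneg fun _ _ => G_nonneg _ _
  have h4 : P M n β ≤ C ^ n * (M : ℝ) ^ ε * S := by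
    refine h3.trans ?_
    rw [hS, mul_sum]
    refine sum_le_sum fun m hm => ?_
    rw [mem_Icc] at hm
    apply mul_le_mul_of_nonneg_right _ (G_nonneg _ _)
    have h5 := hdiv m (by omega)
    have hmM : (m : ℝ) ≤ (M : ℝ) ^ n := by exact_mod_cast hm.2
    have hm1 : (1 : ℝ) ≤ m := by exact_mod_cast hm.1
    calc ((m.divisors.card : ℕ) : ℝ) ^ n ≤ (C * (m : ℝ) ^ (ε / (n ^ 2 + 1))) ^ n := by gcongr
      _ = C ^ n * ((m : ℝ) ^ (ε / (n ^ 2 + 1))) ^ n := mul_pow _ _ _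
      _ ≤ C ^ n * (M : ℝ) ^ ε := by
          gcongr
          calc ((m : ℝ) ^ (ε / (n ^ 2 + 1))) ^ n ≤ (((M : ℝ) ^ n) ^ (ε / (n ^ 2 + 1))) ^ n := by
                gcongr
            _ = (M : ℝ) ^ (n * (ε / (n ^ 2 + 1)) * n) := by
                rw [← Real.rpow_natCast (M : ℝ) n, ← Real.rpow_mul hM0.le, ← Real.rpow_natCast _ n,
                  ← Real.rpow_mul hM0.le]
            _ ≤ (M : ℝ) ^ ε := by
                apply Real.rpow_le_rpow_of_exponent_le hMR
                have e1 : (n : ℝ) * (ε / (n ^ 2 + 1)) * n = ε * (n ^ 2 / (n ^ 2 + 1)) := by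
                  field_simp
                rw [e1]
                have e2 : (n : ℝ) ^ 2 / (n ^ 2 + 1) ≤ 1 := by
                  rw [div_le_one (by positivity)]
                  linarith
                nlinarith
  set N : ℝ := ‖∑ a ∈ cube (n + 1) M, e ((∏ i, (a i : ℝ)) * β) * ∏ j, F j a‖ with hN
  have hp : (0 : ℝ) < (M : ℝ) ^ (2 * n + 1) := by positivity
  rw [← mul_le_mul_iff_of_pos_left hp]
  refine h1.trans ?_
  have h5 : T M n β ≤ (2 ^ n * C ^ n + n * 2 ^ n + 1) *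
      ((M : ℝ) ^ n * (M : ℝ) ^ ε * S + (M : ℝ) ^ (2 * n)) := by
    have h6 : T M n β ≤ (2 * M : ℝ) ^ n * (C ^ n * (M : ℝ) ^ ε * S) + n * 2 ^ n * (M : ℝ) ^ (2 * n) := by
      refine h2.trans ?_
      gcongr
    have e1 : (2 * M : ℝ) ^ n * (C ^ n * (M : ℝ) ^ ε * S) =
        (2 ^ n * C ^ n) * ((M : ℝ) ^ n * (M : ℝ) ^ ε * S) := by
      rw [mul_pow]
      ring
    rw [e1] at h6
    have h7 : 0 ≤ (M : ℝ) ^ n * (M : ℝ) ^ ε * S := by positivity
    have h8 : 0 ≤ (M : ℝ) ^ (2 * n) := by positivity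
    have h9 : (0 : ℝ) ≤ 2 ^ n * C ^ n := by positivity
    have h10 : (0 : ℝ) ≤ n * 2 ^ n := by positivity
    nlinarith [mul_nonneg h10 h7, mul_nonneg h9 h8]
  have e2 : (M : ℝ) ^ (2 * n + 1) * ((2 ^ n * C ^ n + n * 2 ^ n + 1) * ((M : ℝ) ^ (n + 1)) ^ 2 ^ n *
      ((M : ℝ) ^ (ε - n - 1) * S + (M : ℝ) ^ (-1 : ℝ))) =
      (M : ℝ) ^ ((n + 1) * 2 ^ n) * ((2 ^ n * C ^ n + n * 2 ^ n + 1) *
      ((M : ℝ) ^ n * (M : ℝ) ^ ε * S + (M : ℝ) ^ (2 * n))) := by
    have e3 : (M : ℝ) ^ (2 * n + 1) * (M : ℝ) ^ (ε - n - 1) = (M : ℝ) ^ n * (M : ℝ) ^ ε := by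
      rw [← Real.rpow_natCast, ← Real.rpow_natCast, ← Real.rpow_add hM0, ← Real.rpow_add hM0]
      congr 1
      push_cast
      ring
    have e4 : (M : ℝ) ^ (2 * n + 1) * (M : ℝ) ^ (-1 : ℝ) = (M : ℝ) ^ (2 * n) := by
      rw [← Real.rpow_natCast, ← Real.rpow_natCast, ← Real.rpow_add hM0]
      congr 1
      push_cast
      ring
    rw [pow_mul]
    calc (M : ℝ) ^ (2 * n + 1) * ((2 ^ n * C ^ n + n * 2 ^ n + 1) * ((M : ℝ) ^ (n + 1)) ^ 2 ^ n *
          ((M : ℝ) ^ (ε - n - 1) * S + (M : ℝ) ^ (-1 : ℝ)))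
        = (2 ^ n * C ^ n + n * 2 ^ n + 1) * ((M : ℝ) ^ (n + 1)) ^ 2 ^ n *
          ((M : ℝ) ^ (2 * n + 1) * (M : ℝ) ^ (ε - n - 1) * S +
            (M : ℝ) ^ (2 * n + 1) * (M : ℝ) ^ (-1 : ℝ)) := by ring
      _ = _ := by rw [e3, e4]; ring
  rw [e2]
  gcongr

end Pool.Agent.Run7.h566.ML
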