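import Mathlib
import Pool.Agent.Run7.h566.ML.Place
import Pool.Agent.Run7.h566.DP.Glue
import Pool.Agent.W261.NM.Low

/-! Multilinear families with an algebraic irrational number: the first digits. -/

set_option autoImplicit false

open Finset Filter Topology
open scoped Classical

namespace Pool.Agent.Run7.h566.ML

open Pool.Agent.H469R2.NK (e norm_e e_add e_zero conj_e)
open Pool.Agent.Run7.h566.BL (nd nd_le geo)
open Pool.Agent.Run7.h566.DP (ev_rpow_ge ev_log_le Gd fam)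
open Pool.Agent.W261.NM (lowbd)
open Pool.Agent.R485.Mult (sg abs_sg)

/-- the sum of the lengths at the multiples of a number whose small multiples are not close to the
integers -/
lemma sum_G (M L J : ℕ) (β η : ℝ) (hη : 0 < η) (hJ : 1 ≤ J)
    (hq : ∀ q : ℕ, 1 ≤ q → q ≤ J → ∀ p : ℤ, η ≤ |(q : ℝ) * β - p|) :
    ∑ m ∈ Icc 1 L, G M ((m : ℝ) * β) ≤ ((L / J : ℕ) : ℝ) * M + L * (8 / η) := by
  rw [← sum_filter_add_sum_filter_not (Icc 1 L) (fun m : ℕ => nd ((m : ℝ) * β) < η / 2)]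
  apply add_le_add
  · have hcard : ((Icc 1 L).filter fun m : ℕ => nd ((m : ℝ) * β) < η / 2).card ≤ L / J := by
      have h1 : ((Icc 1 L).filter fun m : ℕ => nd ((m : ℝ) * β) < η / 2).card ≤ (Icc 1 (L / J)).card := by
        refine card_le_card_of_injOn (fun m => m / J) ?_ ?_
        · intro m hm
          rw [mem_coe, mem_filter, mem_Icc] at hm
          rw [mem_coe, mem_Icc]
          refine ⟨?_, Nat.div_le_div_right hm.1.2⟩
          rw [Nat.one_le_div_iff (by omega)]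
          by_contra hcon
          have h2 := hq m hm.1.1 (by omega) (round ((m : ℝ) * β))
          have h3 := hm.2
          unfold nd at h3
          linarith
        · have key : ∀ m m' : ℕ, m < m' → nd ((m : ℝ) * β) < η / 2 → nd ((m' : ℝ) * β) < η / 2 →
              m / J ≠ m' / J := by
            intro m m' hlt h2 h3 heq
            have h4 : m' - m ≤ J := by
              have e1 := Nat.div_add_mod m J
              have e2 := Nat.div_add_mod m' J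
              have e3 := Nat.mod_lt m' (show 0 < J by omega)
              rw [heq] at e1
              omega
            have h5 := hq (m' - m) (by omega) h4 (round ((m' : ℝ) * β) - round ((m : ℝ) * β))
            unfold nd at h2 h3
            rw [Nat.cast_sub hlt.le] at h5
            have h6 : ((m' : ℝ) - m) * β - ((round ((m' : ℝ) * β) - round ((m : ℝ) * β) : ℤ) : ℝ) =
                ((m' : ℝ) * β - round ((m' : ℝ) * β)) - ((m : ℝ) * β - round ((m : ℝ) * β)) := by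
              push_cast
              ring
            rw [h6] at h5
            have h7 := abs_sub ((m' : ℝ) * β - round ((m' : ℝ) * β)) ((m : ℝ) * β - round ((m : ℝ) * β))
            linarith
          intro m hm m' hm' heq
          rw [mem_coe, mem_filter] at hm hm'
          rcases lt_trichotomy m m' with h | h | h
          · exact absurd heq (key m m' h hm.2 hm'.2)
          · exact h
          · exact absurd heq.symm (key m' m h hm'.2 hm.2)
      rwa [Nat.card_Icc, Nat.add_sub_cancel] at h1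
    calc ∑ m ∈ (Icc 1 L).filter (fun m : ℕ => nd ((m : ℝ) * β) < η / 2), G M ((m : ℝ) * β)
        ≤ (((Icc 1 L).filter fun m : ℕ => nd ((m : ℝ) * β) < η / 2).card : ℝ) * M := by
          refine (sum_le_card_nsmul _ _ _ fun m _ => G_le M _).trans (le_of_eq ?_)
          rw [nsmul_eq_mul]
      _ ≤ ((L / J : ℕ) : ℝ) * M := by
          apply mul_le_mul_of_nonneg_right _ (Nat.cast_nonneg _)
          exact_mod_cast hcard
  · have h1 : ∀ m ∈ (Icc 1 L).filter (fun m : ℕ => ¬ nd ((m : ℝ) * β) < η / 2),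
        G M ((m : ℝ) * β) ≤ 8 / η := by
      intro m hm
      rw [mem_filter, not_lt] at hm
      have h2 : 0 < nd ((m : ℝ) * β) := lt_of_lt_of_le (by positivity) hm.2
      refine (geo _ M h2).trans ?_
      rw [div_le_div_iff₀ h2 hη]
      linarith
    refine (sum_le_card_nsmul _ _ _ h1).trans ?_
    rw [nsmul_eq_mul]
    apply mul_le_mul_of_nonneg_right _ (by positivity)
    have h2 := card_filter_le (Icc 1 L) (fun m : ℕ => ¬ nd ((m : ℝ) * β) < η / 2)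
    rw [Nat.card_Icc, Nat.add_sub_cancel] at h2
    exact_mod_cast h2

/-- **Power saving.** -/
theorem multi_sav (ξ : ℝ) (halg : IsAlgebraic ℚ ξ) (hirr : Irrational ξ) (b : ℕ) (hb : 2 ≤ b)
    (n D : ℕ) (C : ℝ) (hC : 0 < C) :
    ∃ c : ℝ, 0 < c ∧ c < 1 ∧ ∃ M0 : ℕ, ∀ M : ℕ, M0 ≤ M → ∀ k : Fin D → ℕ,
      (∀ i, (k i : ℝ) ≤ C * Real.log M) → ∀ lam : Fin D → ℤ,
      (∀ i, |(lam i : ℝ)| ≤ (M : ℝ) ^ c) → ∑ i, lam i * (b : ℤ) ^ (k i) ≠ 0 →
      ∀ x : Fin (n + 1) → (Fin (n + 1) → ℕ) → ℝ, (∀ j, Free j (x j)) →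
      ∀ Ω : Fin (n + 1) → (Fin (n + 1) → ℕ) → Prop, (∀ j, Free j (Ω j)) →
      ‖∑ a ∈ pts M Ω, e (((∑ i, lam i * (b : ℤ) ^ (k i) : ℤ) : ℝ) * val ξ x a)‖ ≤
        (M : ℝ) ^ ((n : ℝ) + 1 - c) := by
  obtain ⟨c0, hc0, N0, hlow⟩ := lowbd b hb ξ halg hirr D C (1 / 4) hC (by norm_num)
  set c1 : ℝ := min (c0 / 2) (1 / 2) with hc1
  have hc10 : 0 < c1 := lt_min (by positivity) (by norm_num)
  have hc1a : c1 ≤ c0 / 2 := min_le_left _ _
  have hc1b : c1 ≤ 1 / 2 := min_le_right _ _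
  obtain ⟨C1, hC1, hlin⟩ := lin n (c1 / 2) (by positivity)
  set c : ℝ := c1 / 2 ^ (n + 3) with hc
  have hcpos : 0 < c := by positivity
  have hcle : c ≤ c1 / 8 := by
    rw [hc]
    apply div_le_div_of_nonneg_left hc10.le (by norm_num)
    calc (8 : ℝ) = 2 ^ 3 := by norm_num
      _ ≤ 2 ^ (n + 3) := pow_le_pow_right₀ (by norm_num) (by omega)
  obtain ⟨N1, hN1⟩ := eventually_atTop.1 ((ev_rpow_ge (3 * c1 / 8) (11 * C1) (by positivity)).and
    (eventually_ge_atTop 1))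
  refine ⟨c, hcpos, by linarith, max N0 N1, fun M hM k hk lam hlam hne x hx Ω hΩ => ?_⟩
  obtain ⟨hM2, hM1⟩ := hN1 M ((le_max_right _ _).trans hM)
  have hMR : (1 : ℝ) ≤ M := by exact_mod_cast hM1
  have hM0 : (0 : ℝ) < M := by linarith
  set K : ℤ := ∑ i, lam i * (b : ℤ) ^ (k i) with hK
  set β : ℝ := (K : ℝ) * ξ with hβ
  set J : ℕ := ⌊(M : ℝ) ^ (c0 / 2)⌋₊ with hJ
  have hJ1' : (1 : ℝ) ≤ (M : ℝ) ^ (c0 / 2) := Real.one_le_rpow hMR (by positivity)
  have hJ1 : 1 ≤ J := (Nat.one_le_floor_iff _).2 hJ1'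
  have hJl : (M : ℝ) ^ (c0 / 2) ≤ 2 * J := by
    have h1 := Nat.lt_floor_add_one ((M : ℝ) ^ (c0 / 2))
    have h2 : (1 : ℝ) ≤ J := by exact_mod_cast hJ1
    linarith
  have hJu : (J : ℝ) ≤ (M : ℝ) ^ (c0 / 2) := Nat.floor_le (by positivity)
  set η : ℝ := (M : ℝ) ^ (-(1 / 4) : ℝ) with hη
  have hη0 : 0 < η := by positivity
  have hq : ∀ q : ℕ, 1 ≤ q → q ≤ J → ∀ p : ℤ, η ≤ |(q : ℝ) * β - p| := by
    intro q hq1 hq2 p
    have h2 : ∑ i, (q : ℤ) * lam i * (b : ℤ) ^ (k i) = (q : ℤ) * K := by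
      rw [hK, mul_sum]
      exact sum_congr rfl fun i _ => by ring
    have hqR : (0 : ℝ) ≤ q := Nat.cast_nonneg _
    have h1 := hlow M ((le_max_left _ _).trans hM) k hk (fun i => (q : ℤ) * lam i) (by
      intro i
      push_cast
      rw [abs_mul, abs_of_nonneg hqR]
      have hqJ : (q : ℝ) ≤ J := by exact_mod_cast hq2
      calc (q : ℝ) * |(lam i : ℝ)| ≤ (M : ℝ) ^ (c0 / 2) * (M : ℝ) ^ c := by
            gcongr
            · exact hqJ.trans hJu
            · exact hlam i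
        _ = (M : ℝ) ^ (c0 / 2 + c) := by rw [← Real.rpow_add hM0]
        _ ≤ (M : ℝ) ^ c0 := Real.rpow_le_rpow_of_exponent_le hMR (by linarith)) (by
      rw [h2]
      exact mul_ne_zero (by exact_mod_cast (by omega : q ≠ 0)) hne) p
    rw [h2] at h1
    refine le_of_lt (lt_of_lt_of_eq h1 ?_)
    rw [hβ]
    congr 1
    push_cast
    ring
  have hsum := sum_G M (M ^ n) J β η hη0 hJ1 hq
  have hsum2 : ∑ m ∈ Icc 1 (M ^ n), G M ((m : ℝ) * β) ≤ 10 * (M : ℝ) ^ ((n : ℝ) + 1 - c1) := by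
    refine hsum.trans ?_
    have h1 : ((M ^ n / J : ℕ) : ℝ) ≤ 2 * (M : ℝ) ^ ((n : ℝ) - c1) := by
      have h2 : ((M ^ n / J : ℕ) : ℝ) ≤ (M : ℝ) ^ n / J := by
        have := @Nat.cast_div_le ℝ _ _ _ (M ^ n) J
        push_cast at this
        exact this
      refine h2.trans ?_
      have hJ0 : (0 : ℝ) < J := by exact_mod_cast hJ1
      rw [div_le_iff₀ hJ0]
      calc (M : ℝ) ^ n = (M : ℝ) ^ ((n : ℝ) - c1) * (M : ℝ) ^ c1 := by
            rw [← Real.rpow_add hM0, ← Real.rpow_natCast]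
            congr 1
            ring
        _ ≤ (M : ℝ) ^ ((n : ℝ) - c1) * (M : ℝ) ^ (c0 / 2) := by
            apply mul_le_mul_of_nonneg_left _ (by positivity)
            exact Real.rpow_le_rpow_of_exponent_le hMR hc1a
        _ ≤ (M : ℝ) ^ ((n : ℝ) - c1) * (2 * J) := by gcongr
        _ = 2 * (M : ℝ) ^ ((n : ℝ) - c1) * J := by ring
    have h3 : (2 * (M : ℝ) ^ ((n : ℝ) - c1)) * M = 2 * (M : ℝ) ^ ((n : ℝ) + 1 - c1) := by
      have : (M : ℝ) ^ ((n : ℝ) + 1 - c1) = (M : ℝ) ^ ((n : ℝ) - c1) * M := by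
        nth_rewrite 3 [← Real.rpow_one (M : ℝ)]
        rw [← Real.rpow_add hM0]
        congr 1
        ring
      rw [this]
      ring
    have h4 : ((M ^ n : ℕ) : ℝ) * (8 / η) ≤ 8 * (M : ℝ) ^ ((n : ℝ) + 1 - c1) := by
      have e1 : 1 / η = (M : ℝ) ^ (1 / 4 : ℝ) := by
        rw [hη, Real.rpow_neg hM0.le, one_div, inv_inv]
      have e2 : ((M ^ n : ℕ) : ℝ) * (8 / η) = 8 * ((M : ℝ) ^ n * (1 / η)) := by
        push_cast
        ring
      rw [e2, e1, ← Real.rpow_natCast, ← Real.rpow_add hM0]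
      apply mul_le_mul_of_nonneg_left _ (by norm_num)
      apply Real.rpow_le_rpow_of_exponent_le hMR
      linarith
    have h5 : ((M ^ n / J : ℕ) : ℝ) * M ≤ (2 * (M : ℝ) ^ ((n : ℝ) - c1)) * M := by gcongr
    linarith
  rw [pts_sum]
  have h1 := hlin M hM1 β (fun j a => if Ω j a then e ((K : ℝ) * x j a) else 0)
    (fun j a => by
      split_ifs
      · exact (norm_e _).le
      · simp)
    (fun j a a' haa => by
      beta_reduce
      rw [hΩ j a a' haa, hx j a a' haa])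
  have h3 : (M : ℝ) ^ (c1 / 2 - n - 1 : ℝ) * ∑ m ∈ Icc 1 (M ^ n), G M ((m : ℝ) * β) +
      (M : ℝ) ^ (-1 : ℝ) ≤ 11 * (M : ℝ) ^ (-(c1 / 2)) := by
    have h4 : (M : ℝ) ^ (c1 / 2 - n - 1 : ℝ) * ∑ m ∈ Icc 1 (M ^ n), G M ((m : ℝ) * β) ≤
        10 * (M : ℝ) ^ (-(c1 / 2)) := by
      calc (M : ℝ) ^ (c1 / 2 - n - 1 : ℝ) * ∑ m ∈ Icc 1 (M ^ n), G M ((m : ℝ) * β)
          ≤ (M : ℝ) ^ (c1 / 2 - n - 1 : ℝ) * (10 * (M : ℝ) ^ ((n : ℝ) + 1 - c1)) := by gcongr
        _ = 10 * ((M : ℝ) ^ (c1 / 2 - n - 1 : ℝ) * (M : ℝ) ^ ((n : ℝ) + 1 - c1)) := by ring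
        _ = _ := by
            rw [← Real.rpow_add hM0]
            congr 2
            ring
    have h5 : (M : ℝ) ^ (-1 : ℝ) ≤ (M : ℝ) ^ (-(c1 / 2)) :=
      Real.rpow_le_rpow_of_exponent_le hMR (by linarith)
    linarith
  have h6 := h1.trans (mul_le_mul_of_nonneg_left h3 (by positivity))
  refine (pow_le_pow_iff_left₀ (norm_nonneg _) (by positivity) (pow_ne_zero n two_ne_zero)).1
    (h6.trans ?_)
  have e5 : (M : ℝ) ^ ((n : ℝ) + 1 - c) = (M : ℝ) ^ (n + 1) * (M : ℝ) ^ (-c) := by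
    rw [← Real.rpow_natCast (M : ℝ) (n + 1), ← Real.rpow_add hM0]
    congr 1
    push_cast
    ring
  rw [e5, mul_pow]
  have e3 : ((M : ℝ) ^ (-c)) ^ 2 ^ n = (M : ℝ) ^ (-(c1 / 8)) := by
    rw [← Real.rpow_natCast, ← Real.rpow_mul hM0.le]
    congr 1
    rw [hc]
    push_cast
    have : (2 : ℝ) ^ (n + 3) = 8 * 2 ^ n := by ring
    rw [this]
    field_simp
  rw [e3]
  have e6 : (M : ℝ) ^ (-(c1 / 8)) = (M : ℝ) ^ (3 * c1 / 8) * (M : ℝ) ^ (-(c1 / 2)) := by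
    rw [← Real.rpow_add hM0]
    congr 1
    ring
  rw [e6]
  calc C1 * ((M : ℝ) ^ (n + 1)) ^ 2 ^ n * (11 * (M : ℝ) ^ (-(c1 / 2)))
      = ((M : ℝ) ^ (n + 1)) ^ 2 ^ n * (11 * C1 * (M : ℝ) ^ (-(c1 / 2))) := by ring
    _ ≤ ((M : ℝ) ^ (n + 1)) ^ 2 ^ n * ((M : ℝ) ^ (3 * c1 / 8) * (M : ℝ) ^ (-(c1 / 2))) := by gcongr

/-- **Almost all tuples.** -/
theorem multi_digits (ξ : ℝ) (halg : IsAlgebraic ℚ ξ) (hirr : Irrational ξ) (n : ℕ) (B : Finset ℕ)
    (hB : ∀ b ∈ B, 2 ≤ b) (ε δ : ℝ) (hε : 0 < ε) (hδ : 0 < δ) (A : ℕ) :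
    ∃ c : ℝ, 0 < c ∧ ∃ N₀ : ℕ, ∀ N : ℕ, N₀ ≤ N → ∀ M : ℕ, Real.exp (ε * N) ≤ M →
      ∀ x : Fin (n + 1) → (Fin (n + 1) → ℕ) → ℝ, (∀ j, Free j (x j)) →
      ∀ Ω : Fin (n + 1) → (Fin (n + 1) → ℕ) → Prop, (∀ j, Free j (Ω j)) →
      (M : ℝ) ^ ((n : ℝ) + 1 - c) ≤ (pts M Ω).card →
      (((pts M Ω).filter (fun a => ¬ Gd B N δ (val ξ x a))).card : ℝ) * (N : ℝ) ^ A ≤
        (pts M Ω).card := by
  obtain ⟨s, hs, N1, hfam⟩ := fam B hB δ hδ A
  -- one base
  have hbase : ∀ b : ℕ, ∃ c : ℝ, 0 < c ∧ ∃ N2 : ℕ, b ∈ B → ∀ N : ℕ, N2 ≤ N → ∀ M : ℕ,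
      Real.exp (ε * N) ≤ M → 1 ≤ M ∧
      ∀ x : Fin (n + 1) → (Fin (n + 1) → ℕ) → ℝ, (∀ j, Free j (x j)) →
      ∀ Ω : Fin (n + 1) → (Fin (n + 1) → ℕ) → Prop, (∀ j, Free j (Ω j)) →
      (M : ℝ) ^ ((n : ℝ) + 1 - c) ≤ (pts M Ω).card →
      ∀ h : ℕ, 1 ≤ h → h ≤ N → ∀ p : Fin (2 * s) → ℕ, (∀ j, p j ≤ N) →
      ∑ j : Fin (2 * s), sg j * (b : ℤ) ^ (p j) ≠ 0 →
      ‖∑ a ∈ pts M Ω, e (h * val ξ x a * ((∑ j : Fin (2 * s), sg j * (b : ℤ) ^ (p j) : ℤ) : ℝ))‖ ≤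
        (pts M Ω).card / (N : ℝ) ^ s := by
    intro b
    by_cases hb : b ∈ B
    swap
    · exact ⟨1, one_pos, 0, fun h => absurd h hb⟩
    obtain ⟨c, hc0, hc1, M0, hc⟩ := multi_sav ξ halg hirr b (hB b hb) n (2 * s) (1 / ε) (by positivity)
    obtain ⟨M1, hM1⟩ := eventually_atTop.1
      ((ev_log_le (c / (2 * s)) (1 / ε) (by positivity)).and
        ((ev_log_le c (1 / ε) hc0).and (eventually_ge_atTop 1)))
    have hN2 : ∀ᶠ N : ℕ in atTop, ((max M0 M1 : ℕ) : ℝ) ≤ Real.exp (ε * N) := by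
      have h1 : Tendsto (fun N : ℕ => Real.exp (ε * (N : ℝ))) atTop atTop :=
        Real.tendsto_exp_atTop.comp
          (tendsto_natCast_atTop_atTop.const_mul_atTop hε)
      exact h1.eventually_ge_atTop _
    obtain ⟨N2, hN2'⟩ := eventually_atTop.1 (hN2.and (eventually_ge_atTop 1))
    refine ⟨c / 2, by positivity, N2, fun _ N hN M hM => ?_⟩
    obtain ⟨hN3, hN4⟩ := hN2' N hN
    have hMM : max M0 M1 ≤ M := by exact_mod_cast hN3.trans hM
    obtain ⟨h2, h3, h4⟩ := hM1 M ((le_max_right _ _).trans hMM)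
    refine ⟨h4, fun x hx Ω hΩ hcard h hh1 hh2 p hp hne => ?_⟩
    have hMR : (1 : ℝ) ≤ M := by exact_mod_cast h4
    have hMpos : (0 : ℝ) < M := by linarith
    have hNlog : (N : ℝ) ≤ 1 / ε * Real.log M := by
      have := Real.log_le_log (Real.exp_pos _) hM
      rw [Real.log_exp] at this
      rw [one_div, ← div_eq_inv_mul, le_div_iff₀ hε]
      linarith
    have hNR : (1 : ℝ) ≤ N := by exact_mod_cast hN4
    have h6 : ∑ j : Fin (2 * s), sg j * (h : ℤ) * (b : ℤ) ^ (p j) =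
        h * ∑ j : Fin (2 * s), sg j * (b : ℤ) ^ (p j) := by
      rw [mul_sum]
      exact sum_congr rfl fun j _ => by ring
    have h5 := hc M ((le_max_left _ _).trans hMM) p (fun i => by
      have : (p i : ℝ) ≤ N := by exact_mod_cast hp i
      linarith) (fun j => sg j * h) (fun j => by
      have h6 : |((sg j * (h : ℤ) : ℤ) : ℝ)| = h := by
        rw [← Int.cast_abs, abs_mul, abs_sg, one_mul]
        have h6 : |(h : ℤ)| = h := abs_of_nonneg (by positivity)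
        rw [h6]
        push_cast
        rfl
      rw [h6]
      have : (h : ℝ) ≤ N := by exact_mod_cast hh2
      linarith) (by
      rw [h6]
      exact mul_ne_zero (by exact_mod_cast (by omega : h ≠ 0)) hne) x hx Ω hΩ
    rw [h6] at h5
    have h7 : ∑ a ∈ pts M Ω, e (h * val ξ x a * ((∑ j : Fin (2 * s), sg j * (b : ℤ) ^ (p j) : ℤ) : ℝ)) =
        ∑ a ∈ pts M Ω, e (((h * ∑ j : Fin (2 * s), sg j * (b : ℤ) ^ (p j) : ℤ) : ℝ) * val ξ x a) := by
      refine sum_congr rfl fun m _ => ?_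
      congr 1
      push_cast
      ring
    rw [h7]
    refine h5.trans ?_
    rw [le_div_iff₀ (by positivity)]
    have hs0 : (0 : ℝ) < s := by exact_mod_cast hs
    have h8 : (N : ℝ) ^ s ≤ (M : ℝ) ^ (c / 2) := by
      calc (N : ℝ) ^ s ≤ ((M : ℝ) ^ (c / (2 * s))) ^ s := by
            gcongr
            exact hNlog.trans h2
        _ = (M : ℝ) ^ (c / 2) := by
            rw [← Real.rpow_natCast, ← Real.rpow_mul hMpos.le]
            congr 1
            field_simp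
    calc (M : ℝ) ^ ((n : ℝ) + 1 - c) * (N : ℝ) ^ s ≤
          (M : ℝ) ^ ((n : ℝ) + 1 - c) * (M : ℝ) ^ (c / 2) := by gcongr
      _ = (M : ℝ) ^ ((n : ℝ) + 1 - c / 2) := by
          rw [← Real.rpow_add hMpos]
          congr 1
          ring
      _ ≤ _ := hcard
  choose c hc N2 hN2 using hbase
  obtain ⟨cm, hcm, hcm2⟩ : ∃ cm : ℝ, 0 < cm ∧ ∀ b ∈ B, cm ≤ c b := by
    rcases B.eq_empty_or_nonempty with h | h
    · subst h
      exact ⟨1, one_pos, fun b hb => absurd hb (notMem_empty b)⟩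
    · obtain ⟨b0, hb0, hmin⟩ := B.exists_min_image c h
      exact ⟨c b0, hc b0, hmin⟩
  refine ⟨cm, hcm, max N1 (B.sup N2), fun N hN M hM x hx Ω hΩ hcard => ?_⟩
  refine hfam N ((le_max_left _ _).trans hN) (pts M Ω) (val ξ x) ?_
  intro b hbB h hh1 hh2 p hp hne
  have h1 : N2 b ≤ N := (Finset.le_sup (f := N2) hbB).trans ((le_max_right _ _).trans hN)
  obtain ⟨hM1, h2⟩ := hN2 b hbB N h1 M hM
  have hMR : (1 : ℝ) ≤ M := by exact_mod_cast hM1
  refine h2 x hx Ω hΩ (le_trans ?_ hcard) h hh1 hh2 p hp hne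
  apply Real.rpow_le_rpow_of_exponent_le hMR
  linarith [hcm2 b hbB]

end Pool.Agent.Run7.h566.ML
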